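import Pool.Agent.N575.PT.Prim

/-!
# The prototile sets with only periodic tilings form an arithmetical set

Idea of the proof. Let `X` be a compact shift-invariant set of configurations of the plane all of
whose elements are periodic. Then finitely many periods suffice. Otherwise there is, by Zorn's
lemma, a minimal closed shift-invariant subset `Z` for which this fails; the intersection of a
chain of such sets is again such a set, because a configuration all of whose large windows have a
period in a fixed finite set is periodic, with a period in a fixed finite set (otherwise the points
where a multiple of a period is violated would propagate along two transversal lines). By Baire's
theorem one vector is a period of all elements of a nonempty open shift-invariant subset of `Z`, and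
the complement of this subset contradicts the minimality. It follows that all tilings by `S` are
periodic if and only if for some `k` all large square patterns of tiles of `S` have a window of the
radius `Rk k` with a period in the square of radius `k`; this is a recursively enumerable condition.
-/

namespace Pool.Agent.Results.MP_da2aca_lc.PeriodicArithmetical

open Pool.Agent.N575.PT

/-- The set of codes of the finite prototile sets that admit a tiling and have only periodic
tilings is `Σ⁰₂`. The set of the prototile sets all of whose tilings are periodic and the set of
those that admit no tiling are recursively enumerable. -/
theorem result :
    IsSigma 2 (fun k => ∃ S : List Tile, Encodable.encode S = k ∧ PTile S) ∧
    REPred (fun S : List Tile => ∀ T, IsTiling S T → Periodic T) ∧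
    REPred (fun S : List Tile => ¬ ∃ T, IsTiling S T) :=
  ⟨sigma2, re_allPeriodic, re_noTiling⟩

end Pool.Agent.Results.MP_da2aca_lc.PeriodicArithmetical
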